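import Pool.Agent.Helper24.KK.GoalsC

/-!
Packet KK-CLO (project KK of helper24, MP_9a4587_an).
-/

set_option autoImplicit false

namespace Pool.Agent.Helper11.KK

open Finset MeasureTheory Filter
open Pool.Agent.Helper49.RS
open Pool.Agent.Helper24.KK

theorem clo : CLO := by
  intro a pX _ ha0 ha1 hgood
  filter_upwards [hgood, ev_log (64 / 3) (1 - a) (by norm_num) (by linarith),
    eventually_gt_atTop 0] with M hM hlog hpos
  have hM0 : (0 : ℝ) < M := by exact_mod_cast hpos
  have h1 := hM.lo 0 M (Nat.zero_le _) le_rfl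
  have h2 := sum_prb_lower a ha0.le 0 M M (Nat.zero_le _) le_rfl
  rw [← Finset.range_eq_Ico] at h1 h2
  rw [sum_ind_range] at h1
  have h3 : ((M : ℝ) - (0 : ℕ)) * (M : ℝ) ^ (-a) = (M : ℝ) ^ (1 - a) := by
    rw [show (1 - a) = 1 + (-a) by ring, Real.rpow_add hM0, Real.rpow_one]; simp
  rw [h3] at h2
  linarith

end Pool.Agent.Helper11.KK
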